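import Pool.Agent.R219.AM.Main

open Set Filter Topology

namespace Pool.Agent.Results.MP_8907f9_an.ResidualEmpty

open Pool.Agent.R219.AM

theorem result (d : ℕ → ℕ) (hd : ∀ r, 2 ≤ d r) (p : ℕ → ℝ) (hp : ∀ r, 0 < p r)
    (hp1 : ∀ r, p r ≤ 1) :
    ∃ S : C(Gam d, ℂ) →L[ℂ] C(Gam d, ℂ),
      (∀ (g : C(Gam d, ℂ)) (x : Gam d), S g x = adding hd p g x) ∧
      residualSpectrum (X := C(Gam d, ℂ)) S = ∅ :=
  ⟨Sop hd hp hp1, fun _ _ => rfl, main hd hp hp1⟩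

end Pool.Agent.Results.MP_8907f9_an.ResidualEmpty
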